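import Pool.Agent.VB.C

/-!
# Labelled ordered sums: definitions, and expansions by unary predicates and a binary relation
-/

set_option autoImplicit false
set_option linter.unusedSectionVars false
set_option linter.unusedVariables false

namespace Pool.Agent.Helper97.LO

open Set Pool.Agent.Helper5.DU Pool.Agent.Helper6.Str Pool.Agent.Helper79.VC
  Pool.Agent.Helper97.VC Pool.Agent.Helper97.MD

variable {L : FirstOrder.Language.{0, 0}} {M N P : Type}

/-- **Labelled ordered sums.** The total preorder is given by the binary symbol `r` (reversed if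
`o = false`); the pairs `a ≤ b` carry labels in the monoid `G`, which are multiplicative, equal to
`1` inside the classes and determined by the atomic type; the atomic facts about a pair of
elements of different classes are determined by their order, their label and their unary
types. -/
structure LSt [Preorder M] {G : Type} [Monoid G] (r : L.Relations 2) (o : Bool)
    (lab : M → M → G) (S : L.Structure M) : Prop where
  total : ∀ a b : M, a ≤ b ∨ b ≤ a
  le_iff : ∀ a b : M, a ≤ b ↔ (if o then S.RelMap r ![a, b] else S.RelMap r ![b, a])
  one : ∀ a b : M, a ≤ b → b ≤ a → lab a b = 1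
  mul : ∀ a b c : M, a ≤ b → b ≤ c → lab a c = lab a b * lab b c
  inv : ∀ a b a' b' : M, a ≤ b → AtEq S S {(a, a'), (b, b')} → lab a b = lab a' b'
  cross : ∀ a b a' b' : M, a < b → a' < b' → lab a b = lab a' b' → AtEq S S {(a, a')} →
    AtEq S S {(b, b')} → AtEq S S {(a, a'), (b, b')}

/-! ### expansions -/

/-- the new symbols -/
def EN (C : Type) : ℕ → Type
  | 1 => C
  | 2 => Unit
  | _ => Empty

/-- the language `L` with unary symbols for the elements of `C` and one more binary symbol -/
def EL (L : FirstOrder.Language.{0, 0}) (C : Type) : FirstOrder.Language.{0, 0} where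
  Functions _ := Empty
  Relations n := L.Relations n ⊕ EN C n

/-- the new binary symbol -/
def nb2 (L : FirstOrder.Language.{0, 0}) (C : Type) : (EL L C).Relations 2 :=
  Sum.inr ()

/-- the old symbols -/
def old {C : Type} {n : ℕ} (R : L.Relations n) : (EL L C).Relations n := Sum.inl R

variable {C : Type}

/-- the new relations -/
def exR (dat : M → C) (rel : M → M → Prop) : (n : ℕ) → EN C n → (Fin n → M) → Prop
  | 1, c, v => dat (v 0) = c
  | 2, _, v => rel (v 0) (v 1)
  | 0, c, _ => Empty.elim c
  | (_ + 3), c, _ => Empty.elim c

/-- the expansion of `S` by the unary predicates `dat = c` and the binary relation `rel` -/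
@[instance_reducible]
def exS (S : L.Structure M) (dat : M → C) (rel : M → M → Prop) : (EL L C).Structure M where
  funMap f := Empty.elim f
  RelMap {n} R v := Sum.elim (fun R => S.RelMap R v) (fun c => exR dat rel n c v) R

instance (n : ℕ) : IsEmpty ((EL L C).Functions n) := inferInstanceAs (IsEmpty Empty)

instance [Countable C] (n : ℕ) : Countable (EN C n) := by
  unfold EN
  split <;> infer_instance

instance [∀ n, Countable (L.Relations n)] [Countable C] (n : ℕ) :
    Countable ((EL L C).Relations n) := by
  unfold EL
  infer_instance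

theorem ar2_EL (hL : Ar2 L) : Ar2 (EL L C) := by
  intro n h1 h2
  have := hL n h1 h2
  have h3 : IsEmpty (EN C n) := by
    match n, h1, h2 with
    | 0, _, _ => exact inferInstanceAs (IsEmpty Empty)
    | 1, h, _ => exact absurd rfl h
    | 2, _, h => exact absurd rfl h
    | (n + 3), _, _ => exact inferInstanceAs (IsEmpty Empty)
  show IsEmpty (L.Relations n ⊕ EN C n)
  infer_instance

theorem atEq_exS {S : L.Structure M} {T : L.Structure N} {dat : M → C} {dat' : N → C}
    {rel : M → M → Prop} {rel' : N → N → Prop} {p : Set (M × N)} :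
    AtEq (exS S dat rel) (exS T dat' rel') p ↔ AtEq S T p ∧ (∀ a ∈ p, dat a.1 = dat' a.2) ∧
      ∀ a ∈ p, ∀ b ∈ p, rel a.1 b.1 ↔ rel' a.2 b.2 := by
  constructor
  · intro h
    refine ⟨⟨h.1, fun n R v hv => h.2 n (old R) v hv⟩, fun a ha => ?_, fun a ha b hb => ?_⟩
    · have h1 := h.2 1 (Sum.inr (dat a.1) : (EL L C).Relations 1) (fun _ => a) (fun _ => ha)
      have h2 : dat a.1 = dat a.1 ↔ dat' a.2 = dat a.1 := h1
      exact (h2.mp rfl).symm
    · have h1 := h.2 2 (nb2 L C) ![a, b] (by
        intro i
        fin_cases i
        · exact ha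
        · exact hb)
      exact h1
  · rintro ⟨h1, h2, h3⟩
    refine ⟨h1.1, fun n R v hv => ?_⟩
    rcases R with R | c
    · exact h1.2 n R v hv
    · match n, c, v, hv with
      | 0, c, _, _ => exact Empty.elim c
      | 1, c, v, hv =>
        show dat (v 0).1 = c ↔ dat' (v 0).2 = c
        rw [h2 _ (hv 0)]
      | 2, _, v, hv => exact h3 _ (hv 0) _ (hv 1)
      | (n + 3), c, _, _ => exact Empty.elim c

end Pool.Agent.Helper97.LO
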